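import Pool.Agent.Helper431.NBC4

set_option autoImplicit false

open Finset Classical

namespace Pool.Agent.Results.MP_6229d2_co.MinMeanSize

/-- `B` is the edge set of a cycle of `G` with its largest edge removed; the edges are ordered by
the values of `r`. -/
def IsBrokenCycle {V : Type} (G : SimpleGraph V) (r : Sym2 V → ℕ) (B : Finset (Sym2 V)) : Prop :=
  ∃ (u : V) (c : G.Walk u u), c.IsCycle ∧ ∃ e ∈ c.edges, (∀ f ∈ c.edges, r f ≤ r e) ∧
    B = c.edges.toFinset.erase e

/-- the broken-cycle-free edge sets of `G` -/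
noncomputable def freeSets {V : Type} [Fintype V] (G : SimpleGraph V) (r : Sym2 V → ℕ) :
    Finset (Finset (Sym2 V)) :=
  G.edgeFinset.powerset.filter (fun F => ∀ B, IsBrokenCycle G r B → ¬ B ⊆ F)

/-- the mean size of the broken-cycle-free edge sets of `G` -/
noncomputable def meanSize {V : Type} [Fintype V] (G : SimpleGraph V) (r : Sym2 V → ℕ) : ℝ :=
  (∑ F ∈ freeSets G r, (F.card : ℝ)) / (freeSets G r).card

open Pool.Agent.Helper431.NBC

theorem conn_reachable {V : Type} (κ : V → ℕ) (F : Finset (Sym2 V)) (x y : V) :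
    Conn (ea κ) (eb κ) F x y ↔ (SimpleGraph.fromEdgeSet (F : Set (Sym2 V))).Reachable x y := by
  constructor
  · intro h
    refine conn_induct (P := fun x y => (SimpleGraph.fromEdgeSet (F : Set (Sym2 V))).Reachable x y)
      (fun _ => SimpleGraph.Reachable.refl _) (fun _ _ h => h.symm)
      (fun _ _ _ h h' => h.trans h') ?_ h
    intro e he
    by_cases hne : ea κ e = eb κ e
    · rw [hne]
    · apply SimpleGraph.Adj.reachable
      rw [SimpleGraph.fromEdgeSet_adj]
      exact ⟨by rw [← ends_eq κ e]; exact he, hne⟩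
  · rintro ⟨p⟩
    induction p with
    | nil => exact Conn.refl _
    | cons h p ih =>
      refine Conn.trans ?_ ih
      rw [SimpleGraph.fromEdgeSet_adj] at h
      rename_i u v w
      have h1 : s(u, v) ∈ F := h.1
      have h2 := Conn.edge (a := ea κ) (b := eb κ) h1
      have h3 := ends_eq κ s(u, v)
      rw [Sym2.eq_iff] at h3
      rcases h3 with ⟨h4, h5⟩ | ⟨h4, h5⟩
      · rw [← h4, ← h5] at h2; exact h2
      · rw [← h4, ← h5] at h2; exact h2.symm

theorem free_iff {V : Type} [Fintype V] (κ : V → ℕ) (G : SimpleGraph V) (r : Sym2 V → ℕ)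
    (hr : Set.InjOn r G.edgeFinset) (F : Finset (Sym2 V)) (hF : F ⊆ G.edgeFinset) :
    (∀ B, IsBrokenCycle G r B → ¬ B ⊆ F) ↔ NBC (ea κ) (eb κ) G.edgeFinset r F := by
  constructor
  · intro h i hi hc
    have hadj : G.Adj (ea κ i) (eb κ i) := by
      rw [SimpleGraph.mem_edgeFinset, ends_eq κ i, SimpleGraph.mem_edgeSet] at hi; exact hi
    rw [conn_reachable] at hc
    have hc' := hc.symm
    obtain ⟨p, hp⟩ := hc'.exists_isPath
    have hle : ∀ e ∈ p.edges, e ∈ F ∧ r e < r i := by
      intro e he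
      have h1 := p.edges_subset_edgeSet he
      rw [SimpleGraph.edgeSet_fromEdgeSet] at h1
      have h2 := h1.1
      rw [mem_coe, mem_filter] at h2
      exact h2
    have hG : ∀ e ∈ p.edges, e ∈ G.edgeSet := by
      intro e he
      have := hF (hle e he).1
      rwa [SimpleGraph.mem_edgeFinset] at this
    set q := p.transfer G hG with hq
    have hqe : q.edges = p.edges := by rw [hq]; exact p.edges_transfer hG
    have hqp : q.IsPath := hp.transfer hG
    have hni : s(ea κ i, eb κ i) ∉ q.edges := by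
      rw [hqe, ← ends_eq κ i]
      intro hm
      exact lt_irrefl _ (hle i hm).2
    have hcyc : (SimpleGraph.Walk.cons hadj q).IsCycle :=
      (SimpleGraph.Walk.cons_isCycle_iff q hadj).2 ⟨hqp, hni⟩
    refine h (((SimpleGraph.Walk.cons hadj q).edges.toFinset).erase i) ⟨_, _, hcyc, i, ?_, ?_, rfl⟩
      ?_
    · rw [SimpleGraph.Walk.edges_cons, List.mem_cons]
      exact Or.inl (ends_eq κ i)
    · intro f hf
      rw [SimpleGraph.Walk.edges_cons, List.mem_cons] at hf
      rcases hf with hf | hf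
      · rw [hf, ← ends_eq κ i]
      · rw [hqe] at hf
        exact (hle f hf).2.le
    · intro f hf
      rw [mem_erase, List.mem_toFinset, SimpleGraph.Walk.edges_cons, List.mem_cons] at hf
      rcases hf.2 with h2 | h2
      · rw [← ends_eq κ i] at h2; exact absurd h2 hf.1
      · rw [hqe] at h2
        exact (hle f h2).1
  · rintro h B ⟨u, c, hc, e, he, hmax, rfl⟩ hB
    have heE : e ∈ G.edgeFinset := by
      rw [SimpleGraph.mem_edgeFinset]; exact c.edges_subset_edgeSet he
    apply h e heE
    rw [conn_reachable]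
    -- the cycle inside its own edge graph
    set H := SimpleGraph.fromEdgeSet (c.edges.toFinset : Set (Sym2 V)) with hH
    have hcH : ∀ f ∈ c.edges, f ∈ H.edgeSet := by
      intro f hf
      rw [hH, SimpleGraph.edgeSet_fromEdgeSet]
      refine ⟨by simpa using hf, ?_⟩
      exact G.not_isDiag_of_mem_edgeSet (c.edges_subset_edgeSet hf)
    have hc' : (c.transfer H hcH).IsCycle := hc.transfer hcH
    have he' : s(ea κ e, eb κ e) ∈ (c.transfer H hcH).edges := by
      rw [SimpleGraph.Walk.edges_transfer, ← ends_eq κ e]; exact he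
    have := (SimpleGraph.adj_and_reachable_delete_edges_iff_exists_cycle (G := H)
      (v := ea κ e) (w := eb κ e)).2 ⟨u, _, hc', he'⟩
    refine this.2.mono ?_
    intro x y hxy
    rw [SimpleGraph.deleteEdges_adj, hH, SimpleGraph.fromEdgeSet_adj] at hxy
    rw [SimpleGraph.fromEdgeSet_adj]
    obtain ⟨⟨h1, h2⟩, h3⟩ := hxy
    refine ⟨?_, h2⟩
    have h4 : s(x, y) ∈ c.edges := by simpa using h1
    have h5 : s(x, y) ≠ e := by
      intro h5
      apply h3
      rw [Set.mem_singleton_iff, ← ends_eq κ e]; exact h5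
    rw [mem_coe, mem_filter]
    refine ⟨hB (by rw [mem_erase, List.mem_toFinset]; exact ⟨h5, h4⟩), ?_⟩
    refine lt_of_le_of_ne (hmax _ h4) ?_
    intro h6
    apply h5
    refine hr ?_ heE h6
    rw [mem_coe, SimpleGraph.mem_edgeFinset]
    exact c.edges_subset_edgeSet h4

theorem freeSets_eq {V : Type} [Fintype V] (κ : V → ℕ) (G : SimpleGraph V) (r : Sym2 V → ℕ)
    (hr : Set.InjOn r G.edgeFinset) :
    freeSets G r = G.edgeFinset.powerset.filter
      (fun F => NBC (ea κ) (eb κ) G.edgeFinset r F) := by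
  unfold freeSets
  ext F
  rw [mem_filter, mem_filter]
  constructor
  · rintro ⟨h1, h2⟩
    exact ⟨h1, (free_iff κ G r hr F (mem_powerset.1 h1)).1 h2⟩
  · rintro ⟨h1, h2⟩
    exact ⟨h1, (free_iff κ G r hr F (mem_powerset.1 h1)).2 h2⟩

/-- the extremal graph -/
def quasi (n r j : ℕ) : SimpleGraph (Fin n) where
  Adj x y := x ≠ y ∧ (max (x : ℕ) y < r ∨ (max (x : ℕ) y = r ∧ min (x : ℕ) y ≤ j) ∨
    min (x : ℕ) y = 0)
  symm := ⟨by
    rintro x y ⟨h1, h2⟩
    refine ⟨h1.symm, ?_⟩
    rw [max_comm, min_comm]; exact h2⟩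
  loopless := ⟨fun x h => h.1 rfl⟩

theorem quasi_adj_lt {n r j : ℕ} {x y : Fin n} (h : x < y) :
    (quasi n r j).Adj x y ↔ ((y : ℕ) < r ∨ ((y : ℕ) = r ∧ (x : ℕ) ≤ j) ∨ (x : ℕ) = 0) := by
  have h' : (x : ℕ) < y := h
  unfold quasi
  simp only [max_eq_right h'.le, min_eq_left h'.le]
  constructor
  · rintro ⟨_, h2⟩; exact h2
  · intro h2; exact ⟨h.ne, h2⟩

theorem quasi_conn {n r j : ℕ} (hn : 0 < n) : (quasi n r j).Connected := by
  have : Nonempty (Fin n) := ⟨⟨0, hn⟩⟩
  have key : ∀ x : Fin n, (quasi n r j).Reachable ⟨0, hn⟩ x := by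
    intro x
    by_cases hx : x = ⟨0, hn⟩
    · rw [hx]
    · apply SimpleGraph.Adj.reachable
      have hlt : (⟨0, hn⟩ : Fin n) < x := by
        rw [Fin.lt_def]
        have : (x : ℕ) ≠ 0 := fun h => hx (Fin.ext h)
        simp only
        omega
      rw [quasi_adj_lt hlt]
      exact Or.inr (Or.inr rfl)
  exact ⟨fun x y => (key x).symm.trans (key y)⟩

/-- back degrees of the extremal graph -/
theorem quasi_back {n r j : ℕ} (hj : j + 1 < r) (z : Fin n) :
    (univ.filter (fun w : Fin n => (w : ℕ) < z ∧ (quasi n r j).Adj w z)).card =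
      if (z : ℕ) < r then (z : ℕ) else if (z : ℕ) = r then j + 1 else 1 := by
  have hz := z.2
  have hcard : ∀ m : ℕ, m ≤ n → (univ.filter (fun w : Fin n => (w : ℕ) < m)).card = m := by
    intro m hm
    have h1 : (univ.filter (fun w : Fin n => (w : ℕ) < m)).card =
        ((univ.filter (fun w : Fin n => (w : ℕ) < m)).map Fin.valEmbedding).card := by
      rw [card_map]
    rw [h1]
    have h2 : (univ.filter (fun w : Fin n => (w : ℕ) < m)).map Fin.valEmbedding = range m := by
      ext i
      simp only [mem_map, mem_filter, mem_univ, true_and, Fin.valEmbedding_apply, mem_range]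
      constructor
      · rintro ⟨w, hw, rfl⟩; exact hw
      · intro hi; exact ⟨⟨i, by omega⟩, hi, rfl⟩
    rw [h2, card_range]
  have hset : univ.filter (fun w : Fin n => (w : ℕ) < z ∧ (quasi n r j).Adj w z) =
      univ.filter (fun w : Fin n => (w : ℕ) <
        (if (z : ℕ) < r then (z : ℕ) else if (z : ℕ) = r then j + 1 else 1)) := by
    ext w
    simp only [mem_filter, mem_univ, true_and]
    constructor
    · rintro ⟨h1, h2⟩
      rw [quasi_adj_lt (show w < z from h1)] at h2
      split_ifs <;> omega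
    · intro h
      have h1 : (w : ℕ) < z := by
        split_ifs at h <;> omega
      refine ⟨h1, ?_⟩
      rw [quasi_adj_lt (show w < z from h1)]
      split_ifs at h <;> omega
  rw [hset]
  apply hcard
  split_ifs <;> omega

theorem sum_back {M : Type} [AddCommMonoid M] (n r j : ℕ) (hrn : r < n) (f : ℕ → M) :
    ∑ z : Fin n, f (if (z : ℕ) < r then (z : ℕ) else if (z : ℕ) = r then j + 1 else 1) =
      ∑ i ∈ range r, f i + f (j + 1) + (n - r - 1) • f 1 := by
  rw [Fin.sum_univ_eq_sum_range
    (fun i => f (if i < r then i else if i = r then j + 1 else 1)) n]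
  obtain ⟨m, rfl⟩ : ∃ m, n = r + 1 + m := ⟨n - r - 1, by omega⟩
  rw [sum_range_add, sum_range_succ]
  have h1 : ∑ x ∈ range r, f (if x < r then x else if x = r then j + 1 else 1) =
      ∑ i ∈ range r, f i := by
    refine sum_congr rfl (fun i hi => ?_)
    rw [mem_range] at hi
    rw [if_pos hi]
  have h2 : ∑ x ∈ range m, f (if r + 1 + x < r then r + 1 + x else if r + 1 + x = r then j + 1
      else 1) = m • f 1 := by
    rw [← card_range m, ← sum_const]
    refine sum_congr (by rw [card_range]) (fun i _ => ?_)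
    rw [if_neg (by omega), if_neg (by omega)]
  rw [h1, h2]
  simp only [lt_irrefl, if_false, if_true]
  congr 2
  omega

theorem quasi_dn {n r j : ℕ} (hj : j + 1 < r) (z : Fin n) :
    dn (eb (fun v : Fin n => (v : ℕ))) (quasi n r j).edgeFinset z =
      if (z : ℕ) < r then (z : ℕ) else if (z : ℕ) = r then j + 1 else 1 := by
  rw [dn_eq (κ := fun v : Fin n => (v : ℕ)) Fin.val_injective, ← quasi_back hj z]

theorem quasi_card {n r j : ℕ} (hrn : r < n) (hj : j + 1 < r) :
    (quasi n r j).edgeFinset.card = r.choose 2 + (n - r) + j := by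
  rw [← sum_dn (κ := fun v : Fin n => (v : ℕ)), Finset.sum_congr rfl (fun z _ => quasi_dn hj z),
    sum_back n r j hrn (fun i => i)]
  have : ∑ i ∈ range r, i = r.choose 2 := by
    rw [Finset.sum_range_id, Nat.choose_two_right]
  rw [this, smul_eq_mul]
  omega

theorem quasi_mean {n r j : ℕ} (hrn : r < n) (hj : j + 1 < r) (ρ : Sym2 (Fin n) → ℕ)
    (hρ : Set.InjOn ρ (quasi n r j).edgeFinset) :
    meanSize (quasi n r j) ρ = Pool.Agent.Helper431.NBC.val n r j := by
  unfold meanSize
  rw [freeSets_eq (fun v : Fin n => (v : ℕ)) _ ρ hρ]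
  have hinj : Function.Injective (fun v : Fin n => (v : ℕ)) := Fin.val_injective
  rw [mean_eq (κ := fun v : Fin n => (v : ℕ)) hinj hρ (ends_lt hinj _)
    (fun e _ f _ h1 h2 => ends_inj e f h1 h2)]
  · have h1 : ∀ z ∈ (univ : Finset (Fin n)),
      (dn (eb (fun v : Fin n => (v : ℕ))) (quasi n r j).edgeFinset z : ℝ) /
        (dn (eb (fun v : Fin n => (v : ℕ))) (quasi n r j).edgeFinset z + 1) =
      (fun i : ℕ => (i : ℝ) / (i + 1))
        (if (z : ℕ) < r then (z : ℕ) else if (z : ℕ) = r then j + 1 else 1) := by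
      intro z _
      rw [quasi_dn hj z]
    rw [Finset.sum_congr rfl h1, sum_back n r j hrn (fun i : ℕ => (i : ℝ) / (i + 1))]
    unfold Pool.Agent.Helper431.NBC.val
    rw [nsmul_eq_mul]
    have h2 : ((n - r - 1 : ℕ) : ℝ) = (n : ℝ) - r - 1 := by
      rw [Nat.cast_sub (by omega), Nat.cast_sub (by omega)]; simp
    rw [h2]
    push_cast
    congr 1
    · congr 1
      congr 1
      ring
    · ring
  · intro e he f hf heb hlt
    have ee := ends_eq (fun v : Fin n => (v : ℕ)) e
    have ff := ends_eq (fun v : Fin n => (v : ℕ)) f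
    have le := ends_lt hinj _ e he
    have lf := ends_lt hinj _ f hf
    rw [SimpleGraph.mem_edgeFinset, ee, SimpleGraph.mem_edgeSet] at he
    rw [SimpleGraph.mem_edgeFinset, ff, SimpleGraph.mem_edgeSet] at hf
    set x := ea (fun v : Fin n => (v : ℕ)) e
    set y := ea (fun v : Fin n => (v : ℕ)) f
    set z := eb (fun v : Fin n => (v : ℕ)) e
    rw [← heb] at hf lf
    have hx := (quasi_adj_lt (show x < z from le)).1 he
    have hy := (quasi_adj_lt (show y < z from lf)).1 hf
    have hxy : (quasi n r j).Adj x y := by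
      rw [quasi_adj_lt (show x < y from hlt)]
      rcases hy with h | h | h
      · exact Or.inl (by omega)
      · exact Or.inl (by omega)
      · omega
    have hm := ends_mk (κ := fun v : Fin n => (v : ℕ)) (x := x) (y := y) hlt
    exact ⟨s(x, y), by rw [SimpleGraph.mem_edgeFinset, SimpleGraph.mem_edgeSet]; exact hxy,
      hm.1, hm.2⟩

/-- The smallest mean size of the broken-cycle-free edge sets over all connected graphs with `n`
vertices and `k` edges, for all `n - 1 < k < C(n,2)`. -/
theorem result (n k : ℕ) (h1 : n - 1 < k) (h2 : k < n.choose 2) :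
    ∃ r j : ℕ, r < n ∧ j + 1 < r ∧ k = r.choose 2 + (n - r) + j ∧
      (∀ G : SimpleGraph (Fin n), G.Connected → G.edgeFinset.card = k →
        ∀ ρ : Sym2 (Fin n) → ℕ, Set.InjOn ρ G.edgeSet →
          (∑ i ∈ range r, (i : ℝ) / (i + 1)) + ((j : ℝ) + 1) / (j + 2) + ((n : ℝ) - r - 1) / 2 ≤
            meanSize G ρ) ∧
      (∃ G : SimpleGraph (Fin n), G.Connected ∧ G.edgeFinset.card = k ∧
        ∀ ρ : Sym2 (Fin n) → ℕ, Set.InjOn ρ G.edgeSet →
          meanSize G ρ =
          (∑ i ∈ range r, (i : ℝ) / (i + 1)) + ((j : ℝ) + 1) / (j + 2) + ((n : ℝ) - r - 1) / 2) := by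
  -- find r and j
  have hn : 2 ≤ n := by
    by_contra hn
    have : n.choose 2 = 0 := Nat.choose_eq_zero_of_lt (by omega)
    omega
  have hex : ∃ r j : ℕ, r < n ∧ j + 1 < r ∧ k = r.choose 2 + (n - r) + j := by
    have hP : ∃ r, k < (r + 1).choose 2 + (n - (r + 1)) := by
      refine ⟨n - 1, ?_⟩
      have : n - 1 + 1 = n := by omega
      rw [this]; omega
    have hf := Nat.find_spec hP
    have hmin := fun m => Nat.find_min hP (m := m)
    set r := Nat.find hP with hr
    have hrn : r < n := by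
      by_contra hcon
      have := hmin (n - 1) (by omega)
      have h3 : n - 1 + 1 = n := by omega
      rw [h3] at this; omega
    have hr1 : r ≠ 0 := by
      intro h0
      rw [h0] at hf
      simp at hf
      omega
    have h3 := hmin (r - 1) (by omega)
    have h4 : r - 1 + 1 = r := by omega
    rw [h4] at h3
    have h5 : (r + 1).choose 2 = r + r.choose 2 := by
      rw [Nat.choose_succ_succ' r 1, Nat.choose_one_right]
    exact ⟨r, k - (r.choose 2 + (n - r)), hrn, by omega, by omega⟩
  obtain ⟨r, j, hrn, hj, hk⟩ := hex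
  refine ⟨r, j, hrn, hj, hk, ?_, ?_⟩
  · intro G hG hGk ρ hρ
    have hρ' : Set.InjOn ρ G.edgeFinset := by rwa [SimpleGraph.coe_edgeFinset]
    obtain ⟨κ, hκ, hlow⟩ := lower_connected G hG (r := r) (j := j) (by omega)
      (by rw [Fintype.card_fin]; exact hrn) hj (by rw [Fintype.card_fin, hGk, hk])
    have h3 := hlow ρ hρ'
    rw [Fintype.card_fin] at h3
    unfold meanSize
    rw [freeSets_eq κ G ρ hρ']
    exact h3
  · refine ⟨quasi n r j, quasi_conn (by omega), ?_, ?_⟩
    · rw [hk, ← quasi_card hrn hj]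
    · intro ρ hρ
      have hρ' : Set.InjOn ρ (quasi n r j).edgeFinset := by rwa [SimpleGraph.coe_edgeFinset]
      exact quasi_mean hrn hj ρ hρ'

end Pool.Agent.Results.MP_6229d2_co.MinMeanSize
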